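import Pool.Agent.H970.RN.Defs
import Pool.Agent.H740.RG.Final

/-!
# A lower bound for the mass of the two-dimensional N-vector models, with the right dependence on N

For every exponentially decaying ferromagnetic coupling `J` on the square lattice there is a constant
`C` such that for every `N ≥ 3` and every `β > 0` the mass is at least `exp (-C D)` and the
susceptibility is at most `exp (C D)`, with `D = 1 + min β (β / N + log (1 + log N))`.
-/

set_option autoImplicit false

noncomputable section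

namespace Pool.Agent.H550.RN

open MeasureTheory Pool.Agent.H5R2.ON Pool.Agent.H717R2.ON3 Pool.Agent.H983R2.ONJ
open Pool.Agent.Y13.QM Pool.Agent.H970.RG Pool.Agent.H740.RG

/-- **Lower bound for the mass.** Let `J` be any ferromagnetic, exponentially decaying coupling on
the square lattice. There is `C` such that for all `N ≥ 3` and `β > 0` the spin correlations on every
torus and in every infinite volume limit decay at rate `exp (-C D)`; the susceptibility of every such
limit is at most `exp (C D)` and its mass is at least `exp (-C D)`. -/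
theorem result_of (h1 : Pool.Agent.H970.RG.S_fin) (h2 : Pool.Agent.H970.RN.S_fin)
    (J : ℤ × ℤ → ℝ) (hJ : Admissible J) :
    ∃ C : ℝ, 0 < C ∧ ∀ N : ℕ, 3 ≤ N → ∀ β : ℝ, 0 < β → ∀ D : ℝ,
      D = 1 + min β (β / N + Real.log (1 + Real.log N)) →
      (∀ (L : ℕ) [NeZero L] (x y : Tor L), |corr N L J β x y| ≤
        Real.exp 2 * Real.exp (-Real.exp (-(C * D)) * tnorm (x - y))) ∧
      ∀ G : ℤ × ℤ → ℝ, IsLimitCorr N J β G →
        (∀ x, |G x| ≤ Real.exp 2 * Real.exp (-Real.exp (-(C * D)) * znorm x)) ∧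
        Summable G ∧ ∑' x, G x ≤ Real.exp (C * D) ∧
        ∀ μ : ℝ, (∀ n : ℕ, 0 < G (n, 0)) →
          Filter.Tendsto (fun n : ℕ => -(1 / (n : ℝ)) * Real.log (G (n, 0))) Filter.atTop
            (nhds μ) → Real.exp (-(C * D)) ≤ μ := by
  obtain ⟨A, a, ha, hJd⟩ := hJ.decay
  obtain ⟨A', hA', hper⟩ := Jper_le ha hJd
  obtain ⟨C01, hC01, hdec1⟩ := h1 (a / 2) (by linarith)
  obtain ⟨C02, hC02, hdec2⟩ := h2 (a / 2) (by linarith)
  obtain ⟨C0, hC0d⟩ : ∃ C0 : ℝ, C0 = max C01 C02 := ⟨_, rfl⟩
  have hC0 : 1 ≤ C0 := by rw [hC0d]; exact hC01.trans (le_max_left _ _)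
  have hC0a : C01 ≤ C0 := by rw [hC0d]; exact le_max_left _ _
  have hC0b : C02 ≤ C0 := by rw [hC0d]; exact le_max_right _ _
  obtain ⟨C1, hC1⟩ : ∃ C1 : ℝ, C1 = C0 * (1 + A') := ⟨_, rfl⟩
  have hC1' : 1 ≤ C1 := by
    rw [hC1]
    nlinarith [mul_nonneg (show 0 ≤ C0 by linarith) hA']
  refine ⟨2 * C1 + 8, by linarith, ?_⟩
  intro N hN β hβ D hD
  have hN0 : N ≠ 0 := by omega
  have hβ2 : 0 ≤ β := hβ.le
  have hNR : (1 : ℝ) ≤ N := by
    have : 1 ≤ N := by omega
    exact_mod_cast this
  have hll : 0 ≤ Real.log (1 + Real.log N) :=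
    Real.log_nonneg (by linarith [Real.log_nonneg hNR])
  have hβN : 0 ≤ β / N := div_nonneg hβ2 (by linarith)
  have hD1 : 1 ≤ D := by
    rw [hD]
    linarith [le_min hβ2 (add_nonneg hβN hll)]
  -- the rate for the coupling constant `β A'`
  obtain ⟨b, hb⟩ : ∃ b : ℝ, b = Real.exp (-(C1 * D)) := ⟨_, rfl⟩
  have hb0 : 0 < b := by rw [hb]; exact Real.exp_pos _
  have hb1 : b ≤ 1 := by
    rw [hb]
    refine Real.exp_le_one_iff.2 ?_
    nlinarith
  have hdec : ∀ (L : ℕ) [NeZero L] (c : Tor L × Tor L → ℝ), ExpC (β * A') (a / 2) c →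
      ∀ (x y : Tor L),
      (∫ S : Conf N L, inner ℝ (S x : EuclideanSpace ℝ (Fin N)) (S y) * Real.exp (pS c S)
        ∂(prior N L)) / (∫ S : Conf N L, Real.exp (pS c S) ∂(prior N L)) ≤
        Real.exp 2 * Real.exp (-b * tnorm (x - y)) := by
    intro L _ c hc x y
    have ht := tnorm_nonneg (x - y)
    rcases min_choice β (β / N + Real.log (1 + Real.log N)) with hmin | hmin
    · refine (hdec1 (β * A') (by positivity) N hN L c hc x y).trans ?_
      refine mul_le_mul_of_nonneg_left (Real.exp_le_exp.2 ?_) (Real.exp_pos _).le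
      have hrate : b ≤ Real.exp (-(C01 * (1 + β * A'))) := by
        rw [hb, hD, hmin]
        refine Real.exp_le_exp.2 (neg_le_neg ?_)
        rw [hC1, mul_assoc]
        refine mul_le_mul hC0a ?_ (by positivity) (by linarith)
        nlinarith [mul_nonneg hβ2 hA']
      nlinarith
    · refine (hdec2 (β * A') (by positivity) N hN L c hc x y).trans ?_
      refine mul_le_mul_of_nonneg_left (Real.exp_le_exp.2 ?_) (Real.exp_pos _).le
      have hrate : b ≤ Real.exp (-(C02 * (1 + (β * A' / N + Real.log (1 + Real.log N))))) := by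
        rw [hb, hD, hmin]
        refine Real.exp_le_exp.2 (neg_le_neg ?_)
        rw [hC1, mul_assoc]
        have e1 : β * A' / N = β / N * A' := by ring
        rw [e1]
        refine mul_le_mul hC0b ?_ (by positivity) (by linarith)
        nlinarith [mul_nonneg hβN hA', mul_nonneg hll hA']
      nlinarith
  have htor : ∀ (L : ℕ) [NeZero L] (x y : Tor L), 0 ≤ corr N L J β x y ∧
      |corr N L J β x y| ≤ Real.exp 2 * Real.exp (-b * tnorm (x - y)) := by
    intro L _ x y
    have hE : ExpC (β * A') (a / 2) (cJ L J β) := by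
      intro e
      unfold cJ
      split_ifs with h
      · exact ⟨le_rfl, mul_nonneg (by positivity) (Real.exp_pos _).le⟩
      · refine ⟨mul_nonneg hβ.le (Jper_nonneg hJ.nonneg (sub_ne_zero.2 h)), ?_⟩
        rw [mul_assoc, tnorm_sub_comm]
        exact mul_le_mul_of_nonneg_left (hper L _) hβ.le
    have h0 : 0 ≤ corr N L J β x y := by
      rw [corr_eq]
      exact corS_nonneg hN0 (fun e => (hE e).1) x y
    refine ⟨h0, ?_⟩
    rw [abs_of_nonneg h0, corr_eq]
    exact hdec L (cJ L J β) hE x y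
  obtain ⟨b', hb'⟩ : ∃ b' : ℝ, b' = Real.exp (-((2 * C1 + 8) * D)) := ⟨_, rfl⟩
  have hb'b : b' ≤ b := by
    rw [hb', hb]
    refine Real.exp_le_exp.2 (neg_le_neg ?_)
    nlinarith
  rw [← hb']
  refine ⟨?_, ?_⟩
  · intro L _ x y
    refine (htor L x y).2.trans ?_
    refine mul_le_mul_of_nonneg_left (Real.exp_le_exp.2 ?_) (Real.exp_pos _).le
    have := tnorm_nonneg (x - y)
    nlinarith
  intro G hG
  obtain ⟨l, hl, hlim⟩ := hG
  have hbound : ∀ x, |G x| ≤ Real.exp 2 * Real.exp (-b * znorm x) := by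
    intro x
    refine le_of_tendsto (hlim x).abs ?_
    filter_upwards [hl.eventually_ge_atTop (2 * (x.1.natAbs + x.2.natAbs))] with n hn
    refine (htor (l n + 1) _ _).2.trans (le_of_eq ?_)
    congr 2
    rw [zero_sub, tnorm_neg]
    have h1 : |x.1| * 2 < ((l n + 1 : ℕ) : ℤ) := by
      have : (|x.1| : ℤ) = x.1.natAbs := (Int.natCast_natAbs x.1).symm
      rw [this]; push_cast; omega
    have h2 : |x.2| * 2 < ((l n + 1 : ℕ) : ℤ) := by
      have : (|x.2| : ℤ) = x.2.natAbs := (Int.natCast_natAbs x.2).symm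
      rw [this]; push_cast; omega
    have := tnorm_cast (L := l n + 1) x.1 x.2 (by exact_mod_cast h1) (by exact_mod_cast h2)
    rw [this]
    rfl
  have hsum : Summable G := by
    refine Summable.of_norm_bounded (g := fun x => Real.exp 2 * Real.exp (-b * znorm x))
      ((summable_exp_znorm b hb0).mul_left _) fun x => ?_
    rw [Real.norm_eq_abs]
    exact hbound x
  refine ⟨?_, hsum, ?_, ?_⟩
  · intro x
    refine (hbound x).trans ?_
    refine mul_le_mul_of_nonneg_left (Real.exp_le_exp.2 ?_) (Real.exp_pos _).le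
    have : 0 ≤ znorm x := Real.sqrt_nonneg _
    nlinarith
  · have h1 : ∑' x, G x ≤ ∑' x : ℤ × ℤ, Real.exp 2 * Real.exp (-b * znorm x) :=
      hsum.tsum_le_tsum (fun x => (le_abs_self _).trans (hbound x))
        ((summable_exp_znorm b hb0).mul_left _)
    rw [tsum_mul_left] at h1
    have h2 := tsum_exp_znorm_le hb0 hb1
    have h3 : Real.exp 2 * ∑' x : ℤ × ℤ, Real.exp (-b * znorm x) ≤ Real.exp 2 * (64 / b ^ 2) :=
      mul_le_mul_of_nonneg_left h2 (Real.exp_pos _).le
    refine (h1.trans h3).trans ?_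
    have h4 : (64 : ℝ) ≤ Real.exp 6 := by
      have h5 : (2 : ℝ) ≤ Real.exp 1 := by
        have := Real.add_one_le_exp (1 : ℝ)
        linarith
      have h6 : Real.exp 6 = Real.exp 1 ^ 6 := by
        rw [← Real.exp_nat_mul]
        norm_num
      rw [h6]
      calc (64 : ℝ) = 2 ^ 6 := by norm_num
        _ ≤ Real.exp 1 ^ 6 := pow_le_pow_left₀ (by norm_num) h5 6
    have h7 : 64 / b ^ 2 = 64 * Real.exp (2 * (C1 * D)) := by
      rw [hb, ← Real.exp_nat_mul, div_eq_mul_inv, ← Real.exp_neg]
      congr 2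
      push_cast
      ring
    rw [h7]
    calc Real.exp 2 * (64 * Real.exp (2 * (C1 * D)))
        ≤ Real.exp 2 * (Real.exp 6 * Real.exp (2 * (C1 * D))) := by
          refine mul_le_mul_of_nonneg_left ?_ (Real.exp_pos _).le
          exact mul_le_mul_of_nonneg_right h4 (Real.exp_pos _).le
      _ = Real.exp (8 + 2 * (C1 * D)) := by
          rw [← Real.exp_add, ← Real.exp_add]
          congr 1
          ring
      _ ≤ Real.exp ((2 * C1 + 8) * D) := by
          refine Real.exp_le_exp.2 ?_
          nlinarith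
  · intro μ hpos hμ
    refine hb'b.trans ?_
    have hlow : ∀ᶠ n : ℕ in Filter.atTop, b - 2 / n ≤
        -(1 / (n : ℝ)) * Real.log (G (n, 0)) := by
      filter_upwards [Filter.eventually_gt_atTop 0] with n hn
      have hn' : (0 : ℝ) < n := by exact_mod_cast hn
      have h1 := hbound (n, 0)
      rw [abs_of_pos (hpos n)] at h1
      have h2 : znorm ((n : ℤ), (0 : ℤ)) = n := by
        unfold znorm
        simp
      rw [h2] at h1
      have h3 : Real.log (G (n, 0)) ≤ 2 + -b * n := by
        have := Real.log_le_log (hpos n) h1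
        rw [← Real.exp_add, Real.log_exp] at this
        exact this
      have h4 : b - 2 / n = -(1 / (n : ℝ)) * (2 + -b * n) := by
        field_simp
        ring
      rw [h4]
      have h5 : (0 : ℝ) < 1 / n := by positivity
      nlinarith
    have hlim2 : Filter.Tendsto (fun n : ℕ => b - 2 / (n : ℝ)) Filter.atTop
        (nhds (b - 0)) :=
      tendsto_const_nhds.sub (tendsto_const_div_atTop_nhds_zero_nat _)
    rw [sub_zero] at hlim2
    exact le_of_tendsto_of_tendsto hlim2 hμ hlow

end Pool.Agent.H550.RN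

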